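import Pool.Agent.H53.GX.Targets
import Pool.Agent.H29.GM.CSS

/-!
# Board `gm3_modules`: the target `T_CSX`
-/

set_option autoImplicit false
set_option linter.unusedVariables false

namespace Pool.Agent.H77.GX

open Pool.Agent.H68.BP Pool.Agent.H58.SF Pool.Agent.H53.GM Pool.Agent.H53.GX
open Pool.Agent.H29.GM (rsG_rsG vr_pts mem_pts)
open Classical

section

variable {τ : Sig} {N k L : ℕ}

theorem lbx_cast (lb : Fin k → Rg L) (v : Fin k) : lbx lb (Fin.castAdd k v) = lb v :=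
  Fin.addCases_left v

theorem mem_ps {e : Finset (Fin k)} {x : Fin (k + k)} :
    x ∈ ps e ↔ ∃ v ∈ e, Fin.castAdd k v = x := by
  unfold ps
  exact Finset.mem_image

theorem cast_mem_ps {e : Finset (Fin k)} {v : Fin k} : Fin.castAdd k v ∈ ps e ↔ v ∈ e := by
  rw [mem_ps]
  constructor
  · rintro ⟨w, hw, h⟩
    rwa [← Fin.castAdd_injective k k h]
  · exact fun h => ⟨v, h, rfl⟩

theorem ps_mono {e e' : Finset (Fin k)} (h : e ⊆ e') : ps e ⊆ ps e' :=
  Finset.image_subset_image h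

theorem ps_cst (e I : Finset (Fin k)) : Disjoint (ps e) (cst I) := by
  rw [Finset.disjoint_left]
  intro x hx hx'
  obtain ⟨v, -, rfl⟩ := mem_ps.1 hx
  obtain ⟨i, -, h⟩ := Finset.mem_image.1 hx'
  have := congrArg Fin.val h
  simp only [Fin.val_natAdd, Fin.val_castAdd] at this
  have := v.2
  omega

theorem ps_empty : ps (∅ : Finset (Fin k)) = ∅ := Finset.image_empty _

theorem csx_pts {F : Set (Str τ (Fin N))} {I : Finset (Fin k)} {a₀ : Ty τ N (Fin (k + k))}
    (q : {q : Nm τ N k L // CfX F I a₀ q}) (e : Finset (Fin k))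
    (i₁ : DecidableEq ({q : Nm τ N k L // CfX F I a₀ q} × Fin k))
    (i₂ : DecidableEq (Fin (k + k) × Rg L)) :
    @Finset.image _ _ i₂ (cX L F I a₀).pt (@Finset.image _ _ i₁ (fun v => (q, v)) e) =
      pts (lbx q.1.2.2.1) (ps e) := by
  ext x
  rw [Finset.mem_image, mem_pts]
  constructor
  · rintro ⟨y, hy, rfl⟩
    obtain ⟨v, hv, rfl⟩ := Finset.mem_image.mp hy
    exact ⟨cast_mem_ps.2 hv, (lbx_cast _ v).symm⟩
  · rintro ⟨h1, h2⟩
    obtain ⟨v, hv, h3⟩ := mem_ps.1 h1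
    refine ⟨(q, v), Finset.mem_image.mpr ⟨v, hv, rfl⟩, Prod.ext h3 ?_⟩
    rw [h2, ← h3, lbx_cast]
    rfl

theorem csx_ok {F : Set (Str τ (Fin N))} {I : Finset (Fin k)} {a₀ : Ty τ N (Fin (k + k))}
    (q : {q : Nm τ N k L // CfX F I a₀ q}) (e : Finset (Fin k)) (hd : Disjoint e q.1.1)
    (he : pts (lbx q.1.2.2.1) (ps e) ≠ ∅) :
    OkX F (cst I) a₀ (pts (lbx q.1.2.2.1) (ps e)) (kdx I a₀ q.1 e) := by
  obtain ⟨⟨S, r, lb, p⟩, hq⟩ := q
  change pts (lbx lb) (ps e) ≠ ∅ at he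
  change OkX F (cst I) a₀ (pts (lbx lb) (ps e)) (kd (cst I) a₀ r (lbx lb) p (ps e))
  change Disjoint e S at hd
  have hI : ∀ v ∈ e, v ∉ S := fun v hv hv' => Finset.disjoint_left.mp hd hv hv'
  have hsub : cst I ⊆ vr (pts (lbx lb) (ps e)) ∪ cst I := Finset.subset_union_right
  have hsub2 : vr (pts (lbx lb) (ps e)) ∪ cst I ⊆ ps (Finset.univ \ S) ∪ cst I := by
    refine Finset.union_subset_union_left ?_
    rw [vr_pts]
    exact ps_mono fun v hv => Finset.mem_sdiff.2 ⟨Finset.mem_univ v, hI v hv⟩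
  have hrl := hq.rl
  change ∀ c, (∃ P, Rl F P ∧ rse (ps (Finset.univ \ S) ∪ cst I) P = p c) ∧
    rse (cst I) (p c) = a₀ at hrl
  have hlab : ∀ c, (∃ P, Rl F P ∧ rse (vr (pts (lbx lb) (ps e)) ∪ cst I) P =
      rse (vr (pts (lbx lb) (ps e)) ∪ cst I) (p c)) ∧
      rse (cst I) (rse (vr (pts (lbx lb) (ps e)) ∪ cst I) (p c)) = a₀ := by
    intro c
    obtain ⟨⟨P, hP1, hP2⟩, h2⟩ := hrl c
    refine ⟨⟨P, hP1, ?_⟩, by rw [rse_rse hsub]; exact h2⟩
    rw [← hP2, rse_rse hsub2]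
  have k1 : ¬ AS (pts (lbx lb) (ps e)) → ∀ c, (kd (cst I) a₀ r (lbx lb) p (ps e)).1 c =
      rse (vr (pts (lbx lb) (ps e)) ∪ cst I) (p c) := by
    intro h c
    unfold kd rsG
    rw [if_neg he]
    simp only [if_neg h]
  have k2 : ¬ AZ (pts (lbx lb) (ps e)) → ∀ d, (kd (cst I) a₀ r (lbx lb) p (ps e)).2 d =
      rse (vr (pts (lbx lb) (ps e)) ∪ cst I) (p (ix r d)) := by
    intro h c
    unfold kd rsG
    rw [if_neg he]
    simp only [if_neg h]
  have hpt : ∀ x ∈ pts (lbx lb) (ps e), ∃ v, v ∉ S ∧ x.1 = Fin.castAdd k v ∧ x.2 = lb v := by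
    intro x hx
    obtain ⟨h1, h2⟩ := mem_pts.mp hx
    obtain ⟨v, hv, h3⟩ := mem_ps.1 h1
    exact ⟨v, hI v hv, h3.symm, by rw [h2, ← h3, lbx_cast]⟩
  refine ⟨?_, ?_, ?_, ?_, ?_, ?_, ?_, ?_⟩
  · intro x hx y hy hxy
    have hx' := mem_pts.mp (Finset.mem_coe.mp hx)
    have hy' := mem_pts.mp (Finset.mem_coe.mp hy)
    exact Prod.ext hxy (by rw [hx'.2, hy'.2, hxy])
  · rw [vr_pts]
    exact ps_cst e I
  · intro x hx y hy
    obtain ⟨v, hv, -, h1⟩ := hpt x hx
    obtain ⟨v', hv', -, h2⟩ := hpt y hy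
    rw [h1, h2]
    exact hq.adj v hv v' hv'
  · intro h c
    rw [k1 h c]
    exact hlab c
  · intro h
    unfold kd rsG
    rw [if_neg he]
    simp only [if_pos h]
  · intro h d
    rw [k2 h d]
    exact hlab _
  · intro h
    unfold kd rsG
    rw [if_neg he]
    simp only [if_pos h]
  · intro h1 h2 v t r' hv
    obtain ⟨w, hw, -, hw2⟩ := hpt _ hv
    change some (some (t, r')) = lb w at hw2
    have hr : r' = r := by
      have h3 := hq.reg w hw
      change inR r (lb w) at h3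
      rw [← hw2] at h3
      exact h3
    subst hr
    obtain ⟨P, P', hp⟩ : ∃ P P', p = pat r' P P' := by
      rcases hq.bin with h3 | h3
      · have h4 := h3 w hw
        change lb w = none at h4
        rw [← hw2] at h4
        exact absurd h4 (by simp)
      · exact h3
    funext c
    rw [k1 h1 c, pat_eq_ite, k2 h2 0, k2 h2 1, hp, (pat_ix r' P P').1, (pat_ix r' P P').2,
      pat_eq_ite r' P P']
    split_ifs <;> rfl

end

theorem pf_CSX : Pool.Agent.H53.GX.T_CSX := by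
  intro τ N k L F I a₀ hH hL hP
  refine ⟨⟨?_, ?_, ?_, ?_⟩, ?_⟩
  · rintro g κ ⟨q, e, hd, rfl, rfl⟩ x hx y hy hxy
    rw [Finset.mem_coe, Finset.mem_image] at hx hy
    obtain ⟨v, hv, rfl⟩ := hx
    obtain ⟨v', hv', rfl⟩ := hy
    have h1 : Fin.castAdd k v = Fin.castAdd k v' := congrArg Prod.fst hxy
    rw [Fin.castAdd_injective k k h1]
  · rintro g κ g' ⟨q, e, hd, rfl, rfl⟩ hg'
    have hg : g' = (e.filter fun v => (q, v) ∈ g').image (fun v => (q, v)) := by
      ext x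
      rw [Finset.mem_image]
      constructor
      · intro hx
        obtain ⟨v, hv, rfl⟩ := Finset.mem_image.mp (hg' hx)
        exact ⟨v, Finset.mem_filter.mpr ⟨hv, hx⟩, rfl⟩
      · rintro ⟨v, hv, rfl⟩
        exact (Finset.mem_filter.mp hv).2
    have hsub : (e.filter fun v => (q, v) ∈ g') ⊆ e := Finset.filter_subset _ _
    generalize (e.filter fun v => (q, v) ∈ g') = e' at hg hsub
    subst hg
    refine ⟨q, e', Finset.disjoint_of_subset_left hsub hd, rfl, ?_⟩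
    rw [csx_pts]
    exact rsG_rsG (cst I) a₀ (Finset.image_subset_image (ps_mono hsub)) _
  · rintro g κ κ' ⟨q, e, hd, rfl, rfl⟩ ⟨q', e', hd', hg, rfl⟩
    by_cases he : e = ∅
    · subst he
      have he' : e' = ∅ := by
        rw [Finset.image_empty] at hg
        exact Finset.image_eq_empty.mp hg.symm
      subst he'
      unfold kdx kd rsG pts
      rw [ps_empty, Finset.image_empty, Finset.image_empty, if_pos rfl, if_pos rfl]
    · obtain ⟨v, hv⟩ := Finset.nonempty_iff_ne_empty.mpr he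
      have h1 : (q, v) ∈ e'.image (fun v => (q', v)) := by
        rw [← hg]
        exact Finset.mem_image_of_mem _ hv
      obtain ⟨v', hv', h2⟩ := Finset.mem_image.mp h1
      have h3 : q' = q := congrArg Prod.fst h2
      subst h3
      have h4 : e = e' := Finset.image_injective (fun a b h => congrArg Prod.snd h) hg
      rw [h4]
  · rintro g κ ⟨q, e, hd, rfl, rfl⟩
    rw [csx_pts]
    change (pts (lbx q.1.2.2.1) (ps e) = ∅ ∧ _) ∨ (pts (lbx q.1.2.2.1) (ps e) ≠ ∅ ∧ _)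
    by_cases he : pts (lbx q.1.2.2.1) (ps e) = ∅
    · left
      refine ⟨he, ?_⟩
      unfold kdx kd rsG
      rw [if_pos he]
    · right
      exact ⟨he, csx_ok q e hd he⟩
  · obtain ⟨P, hP1, hP2⟩ := hP
    have hC : CfX (L := L) F I a₀ (∅, 0, fun _ => none, fun _ =>
        rse (ps (Finset.univ \ (∅ : Finset (Fin k))) ∪ cst I) P) := by
      refine ⟨Finset.empty_subset _, fun _ => ⟨⟨P, hP1, rfl⟩, ?_⟩, fun _ _ => trivial,
        fun _ _ _ _ => ?_, Or.inl fun _ _ => rfl⟩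
      · show rse (cst I) (rse (ps (Finset.univ \ (∅ : Finset (Fin k))) ∪ cst I) P) = a₀
        rw [rse_rse Finset.subset_union_right, hP2]
      · refine ⟨Nat.zero_le _, Nat.zero_le _, fun q q' h => ?_⟩
        exact absurd h (by simp)
    refine ⟨⟨_, hC⟩, ∅, Finset.disjoint_empty_left _, (Finset.image_empty _).symm, ?_⟩
    unfold kdx kd rsG pts
    rw [ps_empty, Finset.image_empty, if_pos rfl]

end Pool.Agent.H77.GX
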