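import Pool.Agent.H77.GX.CSX
import Pool.Agent.H60.GM.CSG

/-!
# Board gm3_modules, row CGX: the system of all configurations is good
-/

set_option autoImplicit false
set_option linter.unusedVariables false

namespace Pool.Agent.H77.GX

open Pool.Agent.H68.BP Pool.Agent.H58.SF Pool.Agent.H53.GM Pool.Agent.H53.GX
open Pool.Agent.H29.GM (rsG_rsG vr_pts mem_pts)
open Pool.Agent.H60.GM (gd0_of)
open Classical

theorem pf_CGX (hDZX : Pool.Agent.H53.GX.T_DZX) (hCSX : Pool.Agent.H53.GX.T_CSX)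
    (hDSU : Pool.Agent.H53.GM.T_DSU) : Pool.Agent.H53.GX.T_CGX := by
  intro τ N k L F I a₀ hF hL ha₀ hAx
  obtain ⟨hS, hE⟩ := hCSX τ N k L F I a₀ hF hL ha₀
  obtain ⟨hz, hs⟩ := hDZX τ N (k + k) L F (cst I) a₀ _ _ ha₀ hS
  have hty := finite_ty τ N (Fin (k + k))
  have hfin : Finite {q : Nm τ N k L // CfX F I a₀ q} := by
    have : Finite (Nm τ N k L) := by
      unfold Nm
      infer_instance
    infer_instance
  -- there is a configuration
  have hne : Nonempty {q : Nm τ N k L // CfX F I a₀ q} := by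
    obtain ⟨g, q, e, -⟩ := hE
    exact ⟨g⟩
  -- the guards
  have hpt2 : ∀ (q : {q : Nm τ N k L // CfX F I a₀ q}) (e : Finset (Fin k)),
      (e.image (fun v => (q, v))).image
        (fun x : {q : Nm τ N k L // CfX F I a₀ q} × Fin k => Fin.castAdd k x.2) = ps e := by
    intro q e
    rw [Finset.image_image]
    rfl
  have hne2 : ∀ (q : {q : Nm τ N k L // CfX F I a₀ q}) (e : Finset (Fin k)), e.Nonempty →
      (pts (lbx q.1.2.2.1) (ps e)).Nonempty :=
    fun q e he => (he.image _).image _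
  have hlab : ∀ (q : {q : Nm τ N k L // CfX F I a₀ q}) (P : Ty τ N (Fin (k + k))) (c : Fin 6),
      rse (ps (Finset.univ \ q.1.1) ∪ cst I) P = q.1.2.2.2 c → ∀ e : Finset (Fin k),
      Disjoint e q.1.1 → rse (ps e ∪ cst I) P = rse (ps e ∪ cst I) (q.1.2.2.2 c) := by
    intro q P c hP e hd
    rw [← hP, rse_rse]
    refine Finset.union_subset_union_left (ps_mono fun v hv => Finset.mem_sdiff.2
      ⟨Finset.mem_univ v, Finset.disjoint_left.1 hd hv⟩)
  have hlab0 : ∀ (q : {q : Nm τ N k L // CfX F I a₀ q}) (P : Ty τ N (Fin (k + k))) (c : Fin 6),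
      rse (ps (Finset.univ \ q.1.1) ∪ cst I) P = q.1.2.2.2 c → rse (cst I) P = a₀ := by
    intro q P c hP
    rw [← (q.2.rl c).2, ← hP, rse_rse Finset.subset_union_right]
  refine ⟨fun c => ?_, fun d => ?_⟩
  · refine hDSU (Fin (k + k)) (Ty τ N (Fin (k + k))) (bX F (cst I)) N (Gd0 F (cst I)) hAx
      {q : Nm τ N k L // CfX F I a₀ q} (Fin k) _ a₀ (hz c) ⟨_, hE, ?_, rfl⟩ ?_ ?_
    · rintro ⟨v, hv⟩
      simp at hv
    · rintro g t ⟨κ, ⟨q, e, _, rfl, _⟩, _, _⟩
      refine ⟨q, fun x hx => ?_⟩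
      obtain ⟨v, _, rfl⟩ := Finset.mem_image.1 hx
      rfl
    · intro q
      obtain ⟨⟨P, hP1, hP2⟩, -⟩ := q.2.rl c
      refine gd0_of hP1 ?_
      rintro g t ⟨⟨κ, ⟨q', e, hd, rfl, rfl⟩, hSn, rfl⟩, hq⟩
      change rse ((e.image (fun v => (q', v))).image
        (fun x : {q : Nm τ N k L // CfX F I a₀ q} × Fin k => Fin.castAdd k x.2) ∪ cst I) P = _
      rw [hpt2]
      rcases e.eq_empty_or_nonempty with rfl | he
      · have e1 : kdx I a₀ q'.1 ∅ = (fun _ => a₀, fun _ => a₀) := by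
          unfold kdx kd rsG
          rw [if_pos]
          rw [ps_empty]
          exact Finset.image_empty _
        rw [e1, ps_empty, Finset.empty_union]
        exact hlab0 q P c hP2
      · obtain ⟨v, hv⟩ := he
        have h1 : q' = q := hq (q', v) (Finset.mem_image_of_mem _ hv)
        subst h1
        rw [csx_pts] at hSn
        have h2 := hne2 q' e ⟨v, hv⟩
        have h3 : ¬ AS (pts (lbx q'.1.2.2.1) (ps e)) := by
          intro h
          obtain ⟨x, hx⟩ := h.1
          exact hSn ⟨x.1, by rw [← h.2 x hx]; exact hx⟩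
        rw [hlab q' P c hP2 e hd]
        unfold kdx kd rsG
        rw [if_neg h2.ne_empty]
        change _ = (if AS (pts (lbx q'.1.2.2.1) (ps e)) then fun _ => ∅ else
          fun c => rse (vr (pts (lbx q'.1.2.2.1) (ps e)) ∪ cst I) (q'.1.2.2.2 c)) c
        rw [if_neg h3, vr_pts]
  · refine hDSU (Fin (k + k)) (Ty τ N (Fin (k + k))) (bX F (cst I)) N (Gd0 F (cst I)) hAx
      {q : Nm τ N k L // CfX F I a₀ q} (Fin k) _ a₀ (hs d) ⟨_, hE, ?_, rfl⟩ ?_ ?_
    · rintro ⟨v, hv⟩
      simp at hv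
    · rintro g t ⟨κ, ⟨q, e, _, rfl, _⟩, _, _⟩
      refine ⟨q, fun x hx => ?_⟩
      obtain ⟨v, _, rfl⟩ := Finset.mem_image.1 hx
      rfl
    · intro q
      obtain ⟨⟨P, hP1, hP2⟩, -⟩ := q.2.rl (ix q.1.2.1 d)
      refine gd0_of hP1 ?_
      rintro g t ⟨⟨κ, ⟨q', e, hd, rfl, rfl⟩, hSn, rfl⟩, hq⟩
      change rse ((e.image (fun v => (q', v))).image
        (fun x : {q : Nm τ N k L // CfX F I a₀ q} × Fin k => Fin.castAdd k x.2) ∪ cst I) P = _
      rw [hpt2]
      rcases e.eq_empty_or_nonempty with rfl | he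
      · have e1 : kdx I a₀ q'.1 ∅ = (fun _ => a₀, fun _ => a₀) := by
          unfold kdx kd rsG
          rw [if_pos]
          rw [ps_empty]
          exact Finset.image_empty _
        rw [e1, ps_empty, Finset.empty_union]
        exact hlab0 q P _ hP2
      · obtain ⟨v, hv⟩ := he
        have h1 : q' = q := hq (q', v) (Finset.mem_image_of_mem _ hv)
        subst h1
        rw [csx_pts] at hSn
        have h2 := hne2 q' e ⟨v, hv⟩
        have h3 : ¬ AZ (pts (lbx q'.1.2.2.1) (ps e)) := by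
          intro h
          obtain ⟨x, hx⟩ := h.1
          exact hSn ⟨x.1, by rw [← h.2 x hx]; exact hx⟩
        rw [hlab q' P _ hP2 e hd]
        unfold kdx kd rsG
        rw [if_neg h2.ne_empty]
        change _ = (if AZ (pts (lbx q'.1.2.2.1) (ps e)) then fun _ => ∅ else
          fun d => rse (vr (pts (lbx q'.1.2.2.1) (ps e)) ∪ cst I)
            (q'.1.2.2.2 (ix q'.1.2.1 d))) d
        rw [if_neg h3, vr_pts]

end Pool.Agent.H77.GX
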